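import Pool.Agent.U840.HI.Young

/-!
# The two-parameter Hilbert inequality with a smaller constant
-/

set_option autoImplicit false

open MeasureTheory Set
open scoped ENNReal NNReal Real

namespace Pool.Agent.U840.HI

/-- change of variables `x = e^a` -/
lemma lint_exp (F : ℝ → ℝ≥0∞) :
    ∫⁻ x in Ioi (0 : ℝ), F x = ∫⁻ a, ENNReal.ofReal (Real.exp a) * F (Real.exp a) := by
  have h := lintegral_image_eq_lintegral_abs_deriv_mul (s := univ) (f := Real.exp) (f' := Real.exp)
    MeasurableSet.univ (fun x _ => (Real.hasDerivAt_exp x).hasDerivWithinAt)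
    Real.exp_injective.injOn F
  rw [image_univ, Real.range_exp, Measure.restrict_univ] at h
  rw [h]
  exact lintegral_congr fun a => by rw [abs_of_pos (Real.exp_pos a)]

lemma gamma_lint {a r : ℝ} (ha : 0 < a) (hr : 0 < r) :
    ∫⁻ t in Ioi (0 : ℝ), ENNReal.ofReal (t ^ (a - 1) * Real.exp (-(r * t))) =
      ENNReal.ofReal ((1 / r) ^ a * Real.Gamma a) := by
  have h := Real.integral_rpow_mul_exp_neg_mul_Ioi ha hr
  have hpos : 0 < (1 / r) ^ a * Real.Gamma a := by
    have := Real.Gamma_pos_of_pos ha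
    positivity
  have hi : IntegrableOn (fun t : ℝ => t ^ (a - 1) * Real.exp (-(r * t))) (Ioi 0) := by
    by_contra hcon
    have h0 := integral_undef hcon
    rw [h0] at h
    exact hpos.ne h
  rw [← h, ofReal_integral_eq_lintegral_ofReal hi]
  refine (ae_restrict_iff' measurableSet_Ioi).2 (Filter.Eventually.of_forall fun t ht => ?_)
  have : (0 : ℝ) < t := ht
  show 0 ≤ t ^ (a - 1) * Real.exp (-(r * t))
  positivity

/-- the beta integral -/
lemma beta_lint {s : ℝ} (h0 : 0 < s) (h1 : s < 1) :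
    ∫⁻ t in Ioi (0 : ℝ), ENNReal.ofReal (t ^ (s - 1) / (1 + t)) =
      ENNReal.ofReal (π / Real.sin (π * s)) := by
  have e1 : ∀ t ∈ Ioi (0 : ℝ), ENNReal.ofReal (t ^ (s - 1) / (1 + t)) =
      ∫⁻ r in Ioi (0 : ℝ), ENNReal.ofReal (t ^ (s - 1) * Real.exp (-(r * t))) *
        ENNReal.ofReal (Real.exp (-r)) := by
    intro t ht
    have ht0 : (0 : ℝ) < t := ht
    have h := gamma_lint (a := 1) (r := 1 + t) one_pos (by linarith)
    rw [Real.rpow_one, Real.Gamma_one, mul_one] at h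
    rw [div_eq_mul_one_div, ENNReal.ofReal_mul (by positivity), ← h, ← lintegral_const_mul]
    · refine setLIntegral_congr_fun measurableSet_Ioi fun r hr => ?_
      have hr0 : (0 : ℝ) < r := hr
      show ENNReal.ofReal (t ^ (s - 1)) *
        ENNReal.ofReal (r ^ ((1 : ℝ) - 1) * Real.exp (-((1 + t) * r))) = _
      rw [← ENNReal.ofReal_mul (by positivity), ← ENNReal.ofReal_mul (by positivity)]
      congr 1
      rw [sub_self, Real.rpow_zero, one_mul, mul_assoc, ← Real.exp_add]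
      congr 2
      ring
    · fun_prop
  rw [setLIntegral_congr_fun measurableSet_Ioi e1, lintegral_lintegral_swap]
  · have e2 : ∀ r ∈ Ioi (0 : ℝ), ∫⁻ t in Ioi (0 : ℝ),
        ENNReal.ofReal (t ^ (s - 1) * Real.exp (-(r * t))) * ENNReal.ofReal (Real.exp (-r)) =
        ENNReal.ofReal (Real.Gamma s) *
          ENNReal.ofReal (r ^ ((1 - s) - 1) * Real.exp (-(1 * r))) := by
      intro r hr
      have hr0 : (0 : ℝ) < r := hr
      have hG := Real.Gamma_pos_of_pos h0
      rw [lintegral_mul_const _ (by fun_prop), gamma_lint h0 hr0,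
        ← ENNReal.ofReal_mul (by positivity), ← ENNReal.ofReal_mul (by positivity)]
      congr 1
      rw [one_div, Real.inv_rpow hr0.le, ← Real.rpow_neg hr0.le, one_mul,
        show (1 - s) - 1 = -s by ring]
      ring
    rw [setLIntegral_congr_fun measurableSet_Ioi e2, lintegral_const_mul _ (by fun_prop),
      gamma_lint (by linarith : 0 < 1 - s) one_pos]
    have hG := Real.Gamma_pos_of_pos h0
    rw [div_one, Real.one_rpow, one_mul, ← ENNReal.ofReal_mul hG.le,
      Real.Gamma_mul_Gamma_one_sub]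
  · exact (by fun_prop : Measurable _).aemeasurable

/-- the density -/
noncomputable def dens (s : ℝ) (c : ℝ) : ℝ≥0∞ :=
  ENNReal.ofReal (Real.exp (-(s * c)) / (1 + Real.exp (-c)) / (π / Real.sin (π * s)))

lemma sin_pos' {s : ℝ} (h0 : 0 < s) (h1 : s < 1) : 0 < Real.sin (π * s) :=
  Real.sin_pos_of_pos_of_lt_pi (by have := Real.pi_pos; positivity)
    (by have := Real.pi_pos; nlinarith)

lemma dens_meas (s : ℝ) : Measurable (dens s) := by
  unfold dens
  fun_prop

lemma dens_ne_zero {s : ℝ} (h0 : 0 < s) (h1 : s < 1) (c : ℝ) : dens s c ≠ 0 := by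
  have h2 := sin_pos' h0 h1
  have h3 := Real.pi_pos
  unfold dens
  rw [Ne, ENNReal.ofReal_eq_zero, not_le]
  positivity

lemma dens_ne_top (s c : ℝ) : dens s c ≠ ∞ := ENNReal.ofReal_ne_top

lemma dens_int {s : ℝ} (h0 : 0 < s) (h1 : s < 1) : ∫⁻ c, dens s c = 1 := by
  have h2 := sin_pos' h0 h1
  have h3 := Real.pi_pos
  have hB : 0 < π / Real.sin (π * s) := by positivity
  have e1 : ∀ c, dens s (-c) = ENNReal.ofReal (π / Real.sin (π * s))⁻¹ *
      (ENNReal.ofReal (Real.exp c) * ENNReal.ofReal (Real.exp c ^ (s - 1) / (1 + Real.exp c))) := by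
    intro c
    unfold dens
    rw [← ENNReal.ofReal_mul (by positivity), ← ENNReal.ofReal_mul (by positivity)]
    congr 1
    rw [← Real.exp_mul]
    have : Real.exp c * (Real.exp (c * (s - 1)) / (1 + Real.exp c)) =
        Real.exp (s * c) / (1 + Real.exp c) := by
      rw [mul_div_assoc', ← Real.exp_add]
      congr 2
      ring
    rw [this]
    simp only [neg_neg, mul_neg]
    field_simp
  have e2 : ∫⁻ c, dens s c = ∫⁻ c, dens s (-c) := (lintegral_neg_eq_self _).symm
  rw [e2, lintegral_congr e1, lintegral_const_mul _ (by fun_prop),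
    ← lint_exp (fun t => ENNReal.ofReal (t ^ (s - 1) / (1 + t))), beta_lint h0 h1,
    ← ENNReal.ofReal_mul (by positivity), inv_mul_cancel₀ hB.ne', ENNReal.ofReal_one]

/-- the pointwise identity in the reals -/
lemma real_id {p q L s B : ℝ} (hs1 : L * s = 1 - 1 / q)
    (hL : L = 2 - 1 / p - 1 / q) (hB : 0 < B) (a b : ℝ) :
    Real.exp a * (Real.exp b * (Real.exp a + Real.exp b) ^ (-L)) =
      B ^ L * (Real.exp a ^ (1 / p) * Real.exp b ^ (1 / q) *
        (Real.exp (-(s * (a - b))) / (1 + Real.exp (-(a - b))) / B) ^ L) := by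
  have hx := Real.exp_pos a
  have hy := Real.exp_pos b
  have e1 : Real.exp (-(s * (a - b))) / (1 + Real.exp (-(a - b))) =
      Real.exp (a - s * (a - b)) / (Real.exp a + Real.exp b) := by
    rw [div_eq_div_iff (by positivity) (by positivity), mul_add, mul_add, ← Real.exp_add,
      ← Real.exp_add, mul_one, ← Real.exp_add]
    congr 2 <;> ring
  rw [Real.div_rpow (by positivity) hB.le, e1, Real.div_rpow (by positivity) (by positivity),
    ← Real.exp_mul, ← Real.exp_mul, ← Real.exp_mul, Real.rpow_neg (by positivity)]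
  have hBL : B ^ L ≠ 0 := (Real.rpow_pos_of_pos hB L).ne'
  have hxy : (Real.exp a + Real.exp b) ^ L ≠ 0 :=
    (Real.rpow_pos_of_pos (by positivity) L).ne'
  have e2 : Real.exp a * Real.exp b = Real.exp (a * (1 / p)) * Real.exp (b * (1 / q)) *
      Real.exp ((a - s * (a - b)) * L) := by
    rw [← Real.exp_add, ← Real.exp_add, ← Real.exp_add]
    congr 1
    have : (a - s * (a - b)) * L = a * L - (L * s) * (a - b) := by ring
    rw [this, hs1, hL]
    ring
  field_simp
  field_simp at e2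
  linear_combination e2

/-- the bilinear form -/
noncomputable def form (L : ℝ) (f g : ℝ → ℝ≥0∞) : ℝ≥0∞ :=
  ∫⁻ x in Ioi (0 : ℝ), ∫⁻ y in Ioi (0 : ℝ), f x * g y * ENNReal.ofReal ((x + y) ^ (-L))

lemma form_eq {p q L s B : ℝ} (hp : 1 < p) (hq : 1 < q) (hpq : 1 < 1 / p + 1 / q)
    (hs1 : L * s = 1 - 1 / q) (hL : L = 2 - 1 / p - 1 / q) (hB : 0 < B)
    {S : ℝ → ℝ≥0∞} (hS : ∀ c, S c = ENNReal.ofReal (Real.exp (-(s * c)) / (1 + Real.exp (-c)) / B))
    (f g : ℝ → ℝ≥0∞) :
    form L f g = ENNReal.ofReal (B ^ L) * ∫⁻ a, ∫⁻ b,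
      (ENNReal.ofReal (Real.exp a) * f (Real.exp a) ^ p * S (a - b)) ^ (1 - 1 / q) *
      (ENNReal.ofReal (Real.exp b) * g (Real.exp b) ^ q * S (a - b)) ^ (1 - 1 / p) *
      (ENNReal.ofReal (Real.exp a) * f (Real.exp a) ^ p *
        (ENNReal.ofReal (Real.exp b) * g (Real.exp b) ^ q)) ^ (1 - L) := by
  have hp0 : 0 < p := by linarith
  have hq0 : 0 < q := by linarith
  have hp1 : 1 / p < 1 := (div_lt_one hp0).2 hp
  have hq1 : 1 / q < 1 := (div_lt_one hq0).2 hq
  have hL0 : 0 < L := by rw [hL]; linarith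
  have hL1 : L < 1 := by rw [hL]; linarith
  have hSm : Measurable S := by
    have : S = fun c => ENNReal.ofReal (Real.exp (-(s * c)) / (1 + Real.exp (-c)) / B) := funext hS
    rw [this]
    fun_prop
  unfold form
  rw [lint_exp, ← lintegral_const_mul']
  · refine lintegral_congr fun a => ?_
    rw [lint_exp, ← lintegral_const_mul', ← lintegral_const_mul']
    · refine lintegral_congr fun b => ?_
      have h := real_id (p := p) (q := q) hs1 hL hB a b
      set A := ENNReal.ofReal (Real.exp a) with hA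
      set Bb := ENNReal.ofReal (Real.exp b) with hBb
      set X := ENNReal.ofReal ((Real.exp a + Real.exp b) ^ (-L)) with hX
      have hE : A * (Bb * X) = ENNReal.ofReal (B ^ L) * (A ^ (1 / p) * Bb ^ (1 / q) *
          S (a - b) ^ L) := by
        rw [hA, hBb, hX, hS, ENNReal.ofReal_rpow_of_nonneg (Real.exp_pos a).le (by positivity),
          ENNReal.ofReal_rpow_of_nonneg (Real.exp_pos b).le (by positivity),
          ENNReal.ofReal_rpow_of_nonneg (by positivity) hL0.le,
          ← ENNReal.ofReal_mul (by positivity), ← ENNReal.ofReal_mul (by positivity),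
          ← ENNReal.ofReal_mul (by positivity), ← ENNReal.ofReal_mul (by positivity),
          ← ENNReal.ofReal_mul (by positivity), h]
      set T := S (a - b) with hT
      set F := f (Real.exp a) with hF
      set G := g (Real.exp b) with hG
      have c1 : (A * F ^ p * T) ^ (1 - 1 / q) = (A * F ^ p) ^ (1 - 1 / q) * T ^ (1 - 1 / q) :=
        ENNReal.mul_rpow_of_nonneg _ _ (by linarith)
      have c2 : (Bb * G ^ q * T) ^ (1 - 1 / p) = (Bb * G ^ q) ^ (1 - 1 / p) * T ^ (1 - 1 / p) :=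
        ENNReal.mul_rpow_of_nonneg _ _ (by linarith)
      have c3 : (A * F ^ p * (Bb * G ^ q)) ^ (1 - L) =
          (A * F ^ p) ^ (1 - L) * (Bb * G ^ q) ^ (1 - L) :=
        ENNReal.mul_rpow_of_nonneg _ _ (by linarith)
      have c4 : (A * F ^ p) ^ (1 - 1 / q) * (A * F ^ p) ^ (1 - L) = A ^ (1 / p) * F := by
        rw [← ENNReal.rpow_add_of_nonneg _ _ (by linarith) (by linarith),
          show 1 - 1 / q + (1 - L) = 1 / p by rw [hL]; ring,
          ENNReal.mul_rpow_of_nonneg _ _ (by positivity), ← ENNReal.rpow_mul,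
          mul_one_div_cancel hp0.ne', ENNReal.rpow_one]
      have c5 : (Bb * G ^ q) ^ (1 - 1 / p) * (Bb * G ^ q) ^ (1 - L) = Bb ^ (1 / q) * G := by
        rw [← ENNReal.rpow_add_of_nonneg _ _ (by linarith) (by linarith),
          show 1 - 1 / p + (1 - L) = 1 / q by rw [hL]; ring,
          ENNReal.mul_rpow_of_nonneg _ _ (by positivity), ← ENNReal.rpow_mul,
          mul_one_div_cancel hq0.ne', ENNReal.rpow_one]
      have c6 : T ^ (1 - 1 / q) * T ^ (1 - 1 / p) = T ^ L := by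
        rw [← ENNReal.rpow_add_of_nonneg _ _ (by linarith) (by linarith)]
        congr 1
        rw [hL]
        ring
      calc A * (Bb * (F * G * X)) = (A * (Bb * X)) * (F * G) := by ring
        _ = ENNReal.ofReal (B ^ L) * (A ^ (1 / p) * Bb ^ (1 / q) * T ^ L) * (F * G) := by rw [hE]
        _ = ENNReal.ofReal (B ^ L) * ((A ^ (1 / p) * F) * (Bb ^ (1 / q) * G) * T ^ L) := by ring
        _ = ENNReal.ofReal (B ^ L) * (((A * F ^ p) ^ (1 - 1 / q) * (A * F ^ p) ^ (1 - L)) *
              ((Bb * G ^ q) ^ (1 - 1 / p) * (Bb * G ^ q) ^ (1 - L)) *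
              (T ^ (1 - 1 / q) * T ^ (1 - 1 / p))) := by rw [c4, c5, c6]
        _ = _ := by rw [c1, c2, c3]; ring
    · exact ENNReal.ofReal_ne_top
    · exact ENNReal.ofReal_ne_top
  · exact ENNReal.ofReal_ne_top

/-- the bound for normalised functions -/
lemma form_norm {p q : ℝ} (hp : 1 < p) (hq : 1 < q) (hpq : 1 < 1 / p + 1 / q) {L s : ℝ}
    (hL : L = 2 - 1 / p - 1 / q) (hs : s = (1 - 1 / q) / L) :
    ∃ c : ℝ, 0 < c ∧ c < 1 ∧ ∀ f g : ℝ → ℝ≥0∞, Measurable f → Measurable g →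
      ∫⁻ x in Ioi (0 : ℝ), f x ^ p = 1 → ∫⁻ x in Ioi (0 : ℝ), g x ^ q = 1 →
      form L f g ≤ ENNReal.ofReal ((π / Real.sin (π * s)) ^ L * c) := by
  have hp0 : 0 < p := by linarith
  have hq0 : 0 < q := by linarith
  have hp1 : 1 / p < 1 := (div_lt_one hp0).2 hp
  have hq1 : 1 / q < 1 := (div_lt_one hq0).2 hq
  have hL0 : 0 < L := by rw [hL]; linarith
  have hL1 : L < 1 := by rw [hL]; linarith
  have hs0 : 0 < s := by rw [hs]; exact div_pos (by linarith) hL0
  have hs1 : s < 1 := by rw [hs, div_lt_one hL0, hL]; linarith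
  have hsL : L * s = 1 - 1 / q := by rw [hs]; field_simp
  have hsin := sin_pos' hs0 hs1
  have hpi := Real.pi_pos
  have hB : 0 < π / Real.sin (π * s) := by positivity
  obtain ⟨c, hc0, hc1, hc⟩ := youngStrict (dens_meas s) (dens_ne_zero hs0 hs1) (dens_ne_top s)
    (dens_int hs0 hs1) (t1 := 1 - 1 / q) (t2 := 1 - 1 / p) (t3 := 1 - L) (by linarith) (by linarith)
    (by linarith) (by rw [hL]; ring)
  refine ⟨c, hc0, hc1, fun f g hf hg h1 h2 => ?_⟩
  rw [form_eq hp hq hpq hsL hL hB (S := dens s) (fun c => rfl) f g,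
    ENNReal.ofReal_mul (by positivity)]
  gcongr
  refine hc (fun a => ENNReal.ofReal (Real.exp a) * f (Real.exp a) ^ p)
    (fun b => ENNReal.ofReal (Real.exp b) * g (Real.exp b) ^ q) (by fun_prop) (by fun_prop) ?_ ?_
  · rw [← lint_exp (fun x => f x ^ p), h1]
  · rw [← lint_exp (fun x => g x ^ q), h2]

/-- the bound for all functions -/
theorem form_le {p q : ℝ} (hp : 1 < p) (hq : 1 < q) (hpq : 1 < 1 / p + 1 / q) {L s : ℝ}
    (hL : L = 2 - 1 / p - 1 / q) (hs : s = (1 - 1 / q) / L) :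
    ∃ C : ℝ, 0 < C ∧ C < (π / Real.sin (π * s)) ^ L ∧ ∀ f g : ℝ → ℝ≥0∞, Measurable f →
      Measurable g → form L f g ≤ ENNReal.ofReal C * (∫⁻ x in Ioi (0 : ℝ), f x ^ p) ^ (1 / p) *
        (∫⁻ x in Ioi (0 : ℝ), g x ^ q) ^ (1 / q) := by
  have hp0 : 0 < p := by linarith
  have hq0 : 0 < q := by linarith
  have hp1 : 1 / p < 1 := (div_lt_one hp0).2 hp
  have hq1 : 1 / q < 1 := (div_lt_one hq0).2 hq
  have hL0 : 0 < L := by rw [hL]; linarith
  have hs0 : 0 < s := by rw [hs]; exact div_pos (by linarith) hL0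
  have hs1 : s < 1 := by rw [hs, div_lt_one hL0, hL]; linarith
  have hsin := sin_pos' hs0 hs1
  have hpi := Real.pi_pos
  have hB : 0 < π / Real.sin (π * s) := by positivity
  have hBL : 0 < (π / Real.sin (π * s)) ^ L := Real.rpow_pos_of_pos hB L
  obtain ⟨c, hc0, hc1, hc⟩ := form_norm hp hq hpq hL hs
  set C := (π / Real.sin (π * s)) ^ L * c with hC
  have hC0 : 0 < C := mul_pos hBL hc0
  refine ⟨C, hC0, by rw [hC]; nlinarith, fun f g hf hg => ?_⟩
  set Ip := ∫⁻ x in Ioi (0 : ℝ), f x ^ p with hIp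
  set Iq := ∫⁻ x in Ioi (0 : ℝ), g x ^ q with hIq
  have mker : Measurable fun q : ℝ × ℝ => ENNReal.ofReal ((q.1 + q.2) ^ (-L)) := by fun_prop
  by_cases h1 : Ip = 0
  · have h2 : (fun x => f x ^ p) =ᵐ[volume.restrict (Ioi 0)] 0 :=
      (lintegral_eq_zero_iff (hf.pow_const _)).1 h1
    have h3 : form L f g = 0 := by
      unfold form
      rw [lintegral_congr_ae (g := fun _ => 0), lintegral_zero]
      filter_upwards [h2] with x hx
      have : f x = 0 := by
        have h4 : f x ^ p = 0 := hx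
        rcases ENNReal.rpow_eq_zero_iff.1 h4 with h5 | h5
        · exact h5.1
        · exact absurd h5.2 (by linarith)
      simp [this]
    rw [h3]
    exact zero_le
  by_cases h1' : Iq = 0
  · have h2 : (fun x => g x ^ q) =ᵐ[volume.restrict (Ioi 0)] 0 :=
      (lintegral_eq_zero_iff (hg.pow_const _)).1 h1'
    have h3 : form L f g = 0 := by
      unfold form
      have h4 : ∀ x, ∫⁻ y in Ioi (0 : ℝ), f x * g y * ENNReal.ofReal ((x + y) ^ (-L)) = 0 := by
        intro x
        rw [lintegral_congr_ae (g := fun _ => 0), lintegral_zero]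
        filter_upwards [h2] with y hy
        have : g y = 0 := by
          have h4 : g y ^ q = 0 := hy
          rcases ENNReal.rpow_eq_zero_iff.1 h4 with h5 | h5
          · exact h5.1
          · exact absurd h5.2 (by linarith)
        simp [this]
      simp [h4]
    rw [h3]
    exact zero_le
  have hC' : ENNReal.ofReal C ≠ 0 := by
    rw [Ne, ENNReal.ofReal_eq_zero, not_le]
    exact hC0
  by_cases h2 : Ip = ∞
  · rw [h2, ENNReal.top_rpow_of_pos (by positivity), ENNReal.mul_top hC', ENNReal.top_mul]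
    · exact le_top
    · exact fun h => by
        rcases ENNReal.rpow_eq_zero_iff.1 h with h5 | h5
        · exact h1' h5.1
        · exact absurd h5.2 (not_lt.2 (by positivity))
  by_cases h2' : Iq = ∞
  · rw [h2', ENNReal.top_rpow_of_pos (by positivity), ENNReal.mul_top]
    · exact le_top
    · refine mul_ne_zero hC' fun h => ?_
      rcases ENNReal.rpow_eq_zero_iff.1 h with h5 | h5
      · exact h1 h5.1
      · exact absurd h5.2 (not_lt.2 (by positivity))
  -- normalisation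
  have n1 : Ip ^ (1 / p) ≠ 0 := fun h => by
    rcases ENNReal.rpow_eq_zero_iff.1 h with h5 | h5
    · exact h1 h5.1
    · exact h2 h5.1
  have n1' : Ip ^ (1 / p) ≠ ∞ := ENNReal.rpow_ne_top_of_nonneg (by positivity) h2
  have n2 : Iq ^ (1 / q) ≠ 0 := fun h => by
    rcases ENNReal.rpow_eq_zero_iff.1 h with h5 | h5
    · exact h1' h5.1
    · exact h2' h5.1
  have n2' : Iq ^ (1 / q) ≠ ∞ := ENNReal.rpow_ne_top_of_nonneg (by positivity) h2'
  set u := Ip ^ (1 / p) with hu
  set v := Iq ^ (1 / q) with hv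
  have i1 : ∫⁻ x in Ioi (0 : ℝ), (u⁻¹ * f x) ^ p = 1 := by
    simp_rw [ENNReal.mul_rpow_of_nonneg _ _ hp0.le]
    rw [lintegral_const_mul _ (hf.pow_const _), ← hIp, hu, ENNReal.inv_rpow, ← ENNReal.rpow_mul,
      one_div_mul_cancel hp0.ne', ENNReal.rpow_one, ENNReal.inv_mul_cancel h1 h2]
  have i2 : ∫⁻ x in Ioi (0 : ℝ), (v⁻¹ * g x) ^ q = 1 := by
    simp_rw [ENNReal.mul_rpow_of_nonneg _ _ hq0.le]
    rw [lintegral_const_mul _ (hg.pow_const _), ← hIq, hv, ENNReal.inv_rpow, ← ENNReal.rpow_mul,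
      one_div_mul_cancel hq0.ne', ENNReal.rpow_one, ENNReal.inv_mul_cancel h1' h2']
  have h3 := hc (fun x => u⁻¹ * f x) (fun x => v⁻¹ * g x) (hf.const_mul _) (hg.const_mul _) i1 i2
  have h4 : form L (fun x => u⁻¹ * f x) (fun x => v⁻¹ * g x) = u⁻¹ * v⁻¹ * form L f g := by
    unfold form
    rw [← lintegral_const_mul' _ _ (ENNReal.mul_ne_top (ENNReal.inv_ne_top.2 n1)
      (ENNReal.inv_ne_top.2 n2))]
    refine lintegral_congr fun x => ?_
    rw [← lintegral_const_mul' _ _ (ENNReal.mul_ne_top (ENNReal.inv_ne_top.2 n1)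
      (ENNReal.inv_ne_top.2 n2))]
    refine lintegral_congr fun y => ?_
    ring
  rw [h4] at h3
  calc form L f g = (u * u⁻¹) * (v * v⁻¹) * form L f g := by
        rw [ENNReal.mul_inv_cancel n1 n1', ENNReal.mul_inv_cancel n2 n2', one_mul, one_mul]
    _ = u * v * (u⁻¹ * v⁻¹ * form L f g) := by ring
    _ ≤ u * v * ENNReal.ofReal C := by gcongr
    _ = ENNReal.ofReal C * u * v := by ring

/-! ## Series -/

lemma Ioi_eq_iUnion : Ioi (0 : ℝ) = ⋃ m : ℕ, Ioc (m : ℝ) (m + 1) := by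
  ext x
  simp only [mem_Ioi, mem_iUnion, mem_Ioc]
  constructor
  · intro hx
    have h1 : 0 < ⌈x⌉₊ := Nat.ceil_pos.2 hx
    refine ⟨⌈x⌉₊ - 1, ?_, ?_⟩
    · have := Nat.ceil_lt_add_one hx.le
      have h2 : ((⌈x⌉₊ - 1 : ℕ) : ℝ) = (⌈x⌉₊ : ℝ) - 1 := by
        rw [Nat.cast_sub h1, Nat.cast_one]
      rw [h2]
      linarith
    · have := Nat.le_ceil x
      have h2 : ((⌈x⌉₊ - 1 : ℕ) : ℝ) = (⌈x⌉₊ : ℝ) - 1 := by
        rw [Nat.cast_sub h1, Nat.cast_one]
      rw [h2]
      linarith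
  · rintro ⟨m, h1, _⟩
    exact lt_of_le_of_lt (Nat.cast_nonneg m) h1

lemma disj : Pairwise (Function.onFun Disjoint fun m : ℕ => Ioc (m : ℝ) (m + 1)) := by
  intro m n hmn
  rw [Function.onFun, Set.disjoint_left]
  intro x hx hy
  rcases lt_or_gt_of_ne hmn with h | h
  · have : (m : ℝ) + 1 ≤ n := by exact_mod_cast h
    exact absurd hy.1 (not_lt.2 (hx.2.trans this))
  · have : (n : ℝ) + 1 ≤ m := by exact_mod_cast h
    exact absurd hx.1 (not_lt.2 (hy.2.trans this))

lemma lint_Ioi (F : ℝ → ℝ≥0∞) :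
    ∫⁻ x in Ioi (0 : ℝ), F x = ∑' m : ℕ, ∫⁻ x in Ioc (m : ℝ) (m + 1), F x := by
  rw [Ioi_eq_iUnion]
  exact lintegral_iUnion (fun m => measurableSet_Ioc) disj F

/-- the step function of a sequence -/
noncomputable def step (a : ℕ → ℝ≥0∞) (x : ℝ) : ℝ≥0∞ := a (⌈x⌉₊ - 1)

lemma step_meas (a : ℕ → ℝ≥0∞) : Measurable (step a) :=
  (Measurable.of_discrete (f := fun n : ℕ => a (n - 1))).comp Nat.measurable_ceil

lemma step_eq (a : ℕ → ℝ≥0∞) {m : ℕ} {x : ℝ} (hx : x ∈ Ioc (m : ℝ) (m + 1)) : step a x = a m := by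
  have : ⌈x⌉₊ = m + 1 := by
    rw [Nat.ceil_eq_iff (by omega)]
    refine ⟨?_, by push_cast; exact hx.2⟩
    simpa using hx.1
  unfold step
  rw [this, Nat.add_sub_cancel]

lemma lint_unit (m : ℕ) (c : ℝ≥0∞) : ∫⁻ _ in Ioc (m : ℝ) (m + 1), c = c := by
  rw [setLIntegral_const, Real.volume_Ioc]
  simp

lemma step_int (a : ℕ → ℝ≥0∞) (p : ℝ) :
    ∫⁻ x in Ioi (0 : ℝ), step a x ^ p = ∑' m, a m ^ p := by
  rw [lint_Ioi]
  refine tsum_congr fun m => ?_
  rw [setLIntegral_congr_fun measurableSet_Ioc (g := fun _ => a m ^ p), lint_unit]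
  intro x hx
  show step a x ^ p = a m ^ p
  rw [step_eq a hx]

lemma series_le {L : ℝ} (hL : 0 < L) (a b : ℕ → ℝ≥0∞) :
    ∑' m : ℕ, ∑' n : ℕ, a m * b n * ENNReal.ofReal ((((m : ℝ) + 1) + ((n : ℝ) + 1)) ^ (-L)) ≤
      form L (step a) (step b) := by
  unfold form
  rw [lint_Ioi]
  refine ENNReal.tsum_le_tsum fun m => ?_
  calc ∑' n : ℕ, a m * b n * ENNReal.ofReal ((((m : ℝ) + 1) + ((n : ℝ) + 1)) ^ (-L))
      = ∫⁻ _ in Ioc (m : ℝ) (m + 1),
          ∑' n : ℕ, a m * b n * ENNReal.ofReal ((((m : ℝ) + 1) + ((n : ℝ) + 1)) ^ (-L)) :=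
        (lint_unit m _).symm
    _ ≤ _ := by
        refine setLIntegral_mono' measurableSet_Ioc fun x hx => ?_
        rw [lint_Ioi]
        refine ENNReal.tsum_le_tsum fun n => ?_
        calc a m * b n * ENNReal.ofReal ((((m : ℝ) + 1) + ((n : ℝ) + 1)) ^ (-L))
            = ∫⁻ _ in Ioc (n : ℝ) (n + 1),
                a m * b n * ENNReal.ofReal ((((m : ℝ) + 1) + ((n : ℝ) + 1)) ^ (-L)) :=
              (lint_unit n _).symm
          _ ≤ _ := by
              refine setLIntegral_mono' measurableSet_Ioc fun y hy => ?_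
              rw [step_eq a hx, step_eq b hy]
              have hx0 : 0 < x := lt_of_le_of_lt (Nat.cast_nonneg m) hx.1
              have hy0 : 0 < y := lt_of_le_of_lt (Nat.cast_nonneg n) hy.1
              have h5 : ((((m : ℝ) + 1) + ((n : ℝ) + 1)) ^ (-L)) ≤ (x + y) ^ (-L) := by
                rw [Real.rpow_neg (by positivity), Real.rpow_neg (by positivity)]
                apply inv_anti₀ (Real.rpow_pos_of_pos (add_pos hx0 hy0) L)
                exact Real.rpow_le_rpow (by positivity) (by linarith [hx.2, hy.2]) hL.le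
              gcongr

end Pool.Agent.U840.HI
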