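import Mathlib

/-!
# A strict form of Young's inequality

For a fixed positive probability density `S` on the line and positive exponents `θ₁, θ₂, θ₃` with sum
`1`, the integral of `(U(a) S(a-b))^θ₁ (V(b) S(a-b))^θ₂ (U(a) V(b))^θ₃` is bounded by a constant `< 1`
for all probability densities `U, V`.
-/

set_option autoImplicit false

open MeasureTheory Set
open scoped ENNReal NNReal

namespace Pool.Agent.U840.HI

/-! ## Powers in `ℝ≥0∞` -/

lemma half_mul_half (x : ℝ≥0∞) : x ^ (1 / 2 : ℝ) * x ^ (1 / 2 : ℝ) = x := by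
  rw [← ENNReal.rpow_add_of_nonneg _ _ (by norm_num) (by norm_num)]
  norm_num

lemma half_sq (x : ℝ≥0∞) : (x ^ (1 / 2 : ℝ)) ^ (2 : ℝ) = x := by
  rw [← ENNReal.rpow_mul]
  norm_num

lemma sq_half (x : ℝ≥0∞) : (x ^ (2 : ℝ)) ^ (1 / 2 : ℝ) = x := by
  rw [← ENNReal.rpow_mul]
  norm_num

lemma mul_self_half (x : ℝ≥0∞) : (x * x) ^ (1 / 2 : ℝ) = x := by
  rw [ENNReal.mul_rpow_of_nonneg _ _ (by norm_num), half_mul_half]

/-- Cauchy and Schwarz -/
lemma cs {α : Type*} [MeasurableSpace α] (μ : Measure α) {f g : α → ℝ≥0∞} (hf : AEMeasurable f μ)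
    (hg : AEMeasurable g μ) :
    ∫⁻ a, f a * g a ∂μ ≤ (∫⁻ a, f a ^ (2 : ℝ) ∂μ) ^ (1 / 2 : ℝ) *
      (∫⁻ a, g a ^ (2 : ℝ) ∂μ) ^ (1 / 2 : ℝ) :=
  ENNReal.lintegral_mul_le_Lp_mul_Lq μ (Real.HolderConjugate.two_two) hf hg

/-- Hölder with a pair of factors singled out -/
lemma holder_pair {α : Type*} [MeasurableSpace α] (μ : Measure α) {F1 F2 F3 : α → ℝ≥0∞}
    (h1 : AEMeasurable F1 μ) (h2 : AEMeasurable F2 μ) (h3 : AEMeasurable F3 μ)
    (i1 : ∫⁻ a, F1 a ∂μ ≤ 1) (i2 : ∫⁻ a, F2 a ∂μ ≤ 1) (i3 : ∫⁻ a, F3 a ∂μ ≤ 1)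
    {t1 t2 t3 t : ℝ} (ht : 0 < t) (ht1 : t ≤ t1) (ht2 : t ≤ t2) (ht3 : 0 ≤ t3)
    (hs : t1 + t2 + t3 = 1) :
    ∫⁻ a, F1 a ^ t1 * F2 a ^ t2 * F3 a ^ t3 ∂μ ≤
      (∫⁻ a, (F1 a * F2 a) ^ (1 / 2 : ℝ) ∂μ) ^ (2 * t) := by
  have h := ENNReal.lintegral_prod_norm_pow_le (μ := μ) (Finset.univ : Finset (Fin 4))
    (f := ![fun a => (F1 a * F2 a) ^ (1 / 2 : ℝ), F1, F2, F3])
    (p := ![2 * t, t1 - t, t2 - t, t3]) (by
      intro i _
      fin_cases i
      · exact (h1.mul h2).pow_const _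
      · exact h1
      · exact h2
      · exact h3)
    (by simp [Fin.sum_univ_four]; linarith)
    (by
      intro i _
      fin_cases i
      · show 0 ≤ 2 * t
        linarith
      · show 0 ≤ t1 - t
        linarith
      · show 0 ≤ t2 - t
        linarith
      · exact ht3)
  simp only [Fin.prod_univ_four] at h
  have e : ∀ a, F1 a ^ t1 * F2 a ^ t2 * F3 a ^ t3 =
      ((F1 a * F2 a) ^ (1 / 2 : ℝ)) ^ (2 * t) * F1 a ^ (t1 - t) * F2 a ^ (t2 - t) * F3 a ^ t3 := by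
    intro a
    have e1 : ((F1 a * F2 a) ^ (1 / 2 : ℝ)) ^ (2 * t) = F1 a ^ t * F2 a ^ t := by
      rw [← ENNReal.rpow_mul, ENNReal.mul_rpow_of_nonneg _ _ (by linarith)]
      congr 2 <;> ring
    have e2 : F1 a ^ t1 = F1 a ^ t * F1 a ^ (t1 - t) := by
      rw [← ENNReal.rpow_add_of_nonneg _ _ ht.le (by linarith)]
      congr 1
      ring
    have e3 : F2 a ^ t2 = F2 a ^ t * F2 a ^ (t2 - t) := by
      rw [← ENNReal.rpow_add_of_nonneg _ _ ht.le (by linarith)]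
      congr 1
      ring
    rw [e1, e2, e3]
    ring
  calc ∫⁻ a, F1 a ^ t1 * F2 a ^ t2 * F3 a ^ t3 ∂μ
      = ∫⁻ a, ((F1 a * F2 a) ^ (1 / 2 : ℝ)) ^ (2 * t) * F1 a ^ (t1 - t) * F2 a ^ (t2 - t) *
          F3 a ^ t3 ∂μ := lintegral_congr e
    _ ≤ (∫⁻ a, (F1 a * F2 a) ^ (1 / 2 : ℝ) ∂μ) ^ (2 * t) * (∫⁻ a, F1 a ∂μ) ^ (t1 - t) *
          (∫⁻ a, F2 a ∂μ) ^ (t2 - t) * (∫⁻ a, F3 a ∂μ) ^ t3 := h
    _ ≤ (∫⁻ a, (F1 a * F2 a) ^ (1 / 2 : ℝ) ∂μ) ^ (2 * t) * 1 * 1 * 1 := by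
        gcongr
        · exact ENNReal.rpow_le_one i1 (by linarith)
        · exact ENNReal.rpow_le_one i2 (by linarith)
        · exact ENNReal.rpow_le_one i3 ht3
    _ = _ := by rw [mul_one, mul_one, mul_one]

/-! ## The constant -/

/-- `∫ S(t+b) S(b)^(1/2) db` -/
noncomputable def G0 (S : ℝ → ℝ≥0∞) (t : ℝ) : ℝ≥0∞ := ∫⁻ b, S (t + b) * S b ^ (1 / 2 : ℝ)

variable {S : ℝ → ℝ≥0∞}

lemma tsub_sq (x y : ℝ≥0∞) (hy : y ≠ ∞) : 2 * (x * y) + (x - y) ^ (2 : ℝ) ≤ x ^ (2 : ℝ) + y ^ (2 : ℝ) := by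
  rcases eq_or_ne x ∞ with rfl | hx
  · simp
  lift x to ℝ≥0 using hx
  lift y to ℝ≥0 using hy
  rw [← ENNReal.coe_sub, ← ENNReal.coe_rpow_of_nonneg _ (by norm_num : (0 : ℝ) ≤ 2),
    ← ENNReal.coe_rpow_of_nonneg _ (by norm_num : (0 : ℝ) ≤ 2),
    ← ENNReal.coe_rpow_of_nonneg _ (by norm_num : (0 : ℝ) ≤ 2)]
  norm_cast
  rcases le_total x y with h | h
  · rw [tsub_eq_zero_of_le h]
    have : 2 * ((x : ℝ) * y) ≤ (x : ℝ) ^ 2 + (y : ℝ) ^ 2 := by nlinarith [sq_nonneg ((x : ℝ) - y)]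
    have h2 : 2 * (x * y) ≤ x ^ 2 + y ^ 2 := by exact_mod_cast this
    simpa using h2
  · have e : 2 * (x * y) + (x - y) ^ 2 = x ^ 2 + y ^ 2 := by
      apply NNReal.eq
      push_cast [NNReal.coe_sub h]
      ring
    exact le_of_eq e

lemma meas_shift (hS : Measurable S) : Measurable fun q : ℝ × ℝ => S (q.1 + q.2) :=
  hS.comp (measurable_fst.add measurable_snd)

lemma G0_meas (hS : Measurable S) : Measurable (G0 S) := by
  unfold G0
  exact Measurable.lintegral_prod_right'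
    (f := fun q : ℝ × ℝ => S (q.1 + q.2) * S q.2 ^ (1 / 2 : ℝ))
    ((meas_shift hS).mul ((hS.comp measurable_snd).pow_const _))

/-- strict Cauchy-Schwarz -/
lemma G0_strict (hS : Measurable S) (h0 : ∀ x, S x ≠ 0) (hf : ∀ x, S x ≠ ∞)
    (h1 : ∫⁻ x, S x = 1) (t : ℝ) (hD : ∫⁻ b, S (t + b) * S b ≠ ∞) :
    G0 S t ^ (2 : ℝ) < ∫⁻ b, S (t + b) * S b := by
  set w : ℝ → ℝ≥0∞ := fun b => S b ^ (1 / 2 : ℝ) with hw
  have hwm : Measurable w := hS.pow_const _
  have hwf : ∀ b, w b ≠ ∞ := fun b => ENNReal.rpow_ne_top_of_nonneg (by norm_num) (hf b)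
  have hw2 : ∀ b, w b ^ (2 : ℝ) = S b := fun b => half_sq _
  have hT : ∫⁻ b, S (t + b) = 1 := by
    rw [← h1]
    exact lintegral_add_left_eq_self (fun x => S x) t
  have hTm : Measurable fun b => S (t + b) := hS.comp (measurable_const.add measurable_id)
  set D := ∫⁻ b, S (t + b) * S b with hDdef
  set G := G0 S t with hG
  have hGe : G = ∫⁻ b, S (t + b) * w b := rfl
  set Q := ∫⁻ b, ∫⁻ c, S (t + b) * S (t + c) * (w b - w c) ^ (2 : ℝ) with hQ
  -- the three double integrals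
  have key : ∫⁻ b, ∫⁻ c, (2 * ((S (t + b) * w b) * (S (t + c) * w c)) +
      S (t + b) * S (t + c) * (w b - w c) ^ (2 : ℝ)) ≤
      ∫⁻ b, ∫⁻ c, ((S (t + b) * S b) * S (t + c) + S (t + b) * (S (t + c) * S c)) := by
    refine lintegral_mono fun b => lintegral_mono fun c => ?_
    have := mul_le_mul_right (tsub_sq (w b) (w c) (hwf c)) (S (t + b) * S (t + c))
    rw [hw2, hw2] at this
    calc _ = S (t + b) * S (t + c) * (2 * (w b * w c) + (w b - w c) ^ (2 : ℝ)) := by ring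
      _ ≤ S (t + b) * S (t + c) * (S b + S c) := by
          exact this
      _ = _ := by ring
  have mp : Measurable fun q : ℝ × ℝ => S (t + q.1) * S (t + q.2) * (w q.1 - w q.2) ^ (2 : ℝ) :=
    ((hTm.comp measurable_fst).mul (hTm.comp measurable_snd)).mul
      (((hwm.comp measurable_fst).sub (hwm.comp measurable_snd)).pow_const _)
  have eL : ∫⁻ b, ∫⁻ c, (2 * ((S (t + b) * w b) * (S (t + c) * w c)) +
      S (t + b) * S (t + c) * (w b - w c) ^ (2 : ℝ)) = 2 * (G * G) + Q := by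
    have e1 : ∀ b, ∫⁻ c, (2 * ((S (t + b) * w b) * (S (t + c) * w c)) +
        S (t + b) * S (t + c) * (w b - w c) ^ (2 : ℝ)) =
        2 * ((S (t + b) * w b) * G) + ∫⁻ c, S (t + b) * S (t + c) * (w b - w c) ^ (2 : ℝ) := by
      intro b
      have m1 : Measurable fun c => S (t + c) * w c := hTm.mul hwm
      rw [lintegral_add_left ((m1.const_mul _).const_mul _), lintegral_const_mul _ (m1.const_mul _),
        lintegral_const_mul _ m1, ← hGe]
    have m1 : Measurable fun c => S (t + c) * w c := hTm.mul hwm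
    rw [lintegral_congr e1, lintegral_add_left ((m1.mul_const _).const_mul _),
      lintegral_const_mul _ (m1.mul_const _), lintegral_mul_const _ m1, ← hGe]
  have eR : ∫⁻ b, ∫⁻ c, ((S (t + b) * S b) * S (t + c) + S (t + b) * (S (t + c) * S c)) =
      D + D := by
    have m3 : Measurable fun c => S (t + c) * S c := hTm.mul hS
    have e1 : ∀ b, ∫⁻ c, ((S (t + b) * S b) * S (t + c) + S (t + b) * (S (t + c) * S c)) =
        S (t + b) * S b + S (t + b) * D := by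
      intro b
      rw [lintegral_add_left (hTm.const_mul _), lintegral_const_mul _ hTm, hT, mul_one,
        lintegral_const_mul _ m3]
    rw [lintegral_congr e1, lintegral_add_left m3, lintegral_mul_const _ hTm, hT, one_mul]
  rw [eL, eR] at key
  have hQ0 : Q ≠ 0 := by
    intro hz
    have m1 : Measurable fun b => ∫⁻ c, S (t + b) * S (t + c) * (w b - w c) ^ (2 : ℝ) :=
      mp.lintegral_prod_right'
    have h2 := (lintegral_eq_zero_iff m1).1 hz
    obtain ⟨b, hb⟩ := h2.exists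
    have m2 : Measurable fun c => S (t + b) * S (t + c) * (w b - w c) ^ (2 : ℝ) :=
      mp.comp (measurable_const.prodMk measurable_id)
    have h3 := (lintegral_eq_zero_iff m2).1 hb
    have h4 : ∀ᵐ c, S b ≤ S c := by
      filter_upwards [h3] with c hc
      have h5 : S (t + b) * S (t + c) * (w b - w c) ^ (2 : ℝ) = 0 := hc
      have h6 : (w b - w c) ^ (2 : ℝ) = 0 := by
        rcases mul_eq_zero.1 h5 with h7 | h7
        · rcases mul_eq_zero.1 h7 with h8 | h8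
          · exact absurd h8 (h0 _)
          · exact absurd h8 (h0 _)
        · exact h7
      have h7 : w b - w c = 0 := by
        rcases ENNReal.rpow_eq_zero_iff.1 h6 with h8 | h8
        · exact h8.1
        · exact absurd h8.2 (by norm_num)
      have h8 : w b ≤ w c := tsub_eq_zero_iff_le.1 h7
      have h9 := ENNReal.rpow_le_rpow h8 (by norm_num : (0 : ℝ) ≤ 2)
      rwa [hw2, hw2] at h9
    have h5 : ∫⁻ _ : ℝ, S b ≤ ∫⁻ c, S c := lintegral_mono_ae h4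
    rw [lintegral_const, Real.volume_univ, ENNReal.mul_top (h0 b), h1] at h5
    exact absurd h5 (by simp)
  have hGf : 2 * (G * G) ≠ ∞ := by
    intro h
    rw [h, top_add, top_le_iff] at key
    exact (ENNReal.add_ne_top.2 ⟨hD, hD⟩) key
  have h2 : 2 * (G * G) < D + D := lt_of_lt_of_le (ENNReal.lt_add_right hGf hQ0) key
  have e : G ^ (2 : ℝ) = G * G := by
    rw [ENNReal.rpow_two, sq]
  rw [e]
  by_contra hcon
  push Not at hcon
  exact absurd h2 (not_lt.2 (by rw [two_mul]; exact add_le_add hcon hcon))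

lemma int_D (hS : Measurable S) (h1 : ∫⁻ x, S x = 1) :
    ∫⁻ t, ∫⁻ b, S (t + b) * S b = 1 := by
  rw [lintegral_lintegral_swap]
  · have e : ∀ b, ∫⁻ t, S (t + b) * S b = S b := by
      intro b
      rw [lintegral_mul_const _ (by fun_prop : Measurable fun t => S (t + b))]
      have : ∫⁻ t, S (t + b) = 1 := by
        rw [← h1]
        exact lintegral_add_right_eq_self (fun x => S x) b
      rw [this, one_mul]
    rw [lintegral_congr e, h1]
  · exact ((meas_shift hS).mul (hS.comp measurable_snd)).aemeasurable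

/-- the constant is less than one -/
lemma kappa_lt (hS : Measurable S) (h0 : ∀ x, S x ≠ 0) (hf : ∀ x, S x ≠ ∞)
    (h1 : ∫⁻ x, S x = 1) : ∫⁻ t, G0 S t ^ (2 : ℝ) < 1 := by
  have hDm : Measurable fun t => ∫⁻ b, S (t + b) * S b :=
    Measurable.lintegral_prod_right' (f := fun q : ℝ × ℝ => S (q.1 + q.2) * S q.2)
      ((meas_shift hS).mul (hS.comp measurable_snd))
  have hD := int_D hS h1
  have hfin : ∀ᵐ t, ∫⁻ b, S (t + b) * S b < ∞ := by
    refine ae_lt_top hDm ?_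
    rw [hD]
    exact ENNReal.one_ne_top
  have hlt : ∀ᵐ t, G0 S t ^ (2 : ℝ) < ∫⁻ b, S (t + b) * S b := by
    filter_upwards [hfin] with t ht
    exact G0_strict hS h0 hf h1 t ht.ne
  have hle : ∫⁻ t, G0 S t ^ (2 : ℝ) ≤ 1 := by
    rw [← hD]
    exact lintegral_mono_ae (hlt.mono fun t ht => ht.le)
  have := lintegral_strict_mono (μ := (volume : Measure ℝ)) (NeZero.ne _) hDm.aemeasurable
    (ne_top_of_le_ne_top ENNReal.one_ne_top hle) hlt
  rwa [hD] at this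

/-! ## The affinities -/

section Aff

variable {U V : ℝ → ℝ≥0∞}

/-- `∬ U^(1/2)(a) S(a-b) r(b)` is bounded by the norm of `r` -/
lemma bilin (hS : Measurable S) (h1 : ∫⁻ x, S x = 1) (hU : Measurable U) (hU1 : ∫⁻ x, U x = 1)
    {r : ℝ → ℝ≥0∞} (hr : Measurable r) :
    ∫⁻ a, ∫⁻ b, U a ^ (1 / 2 : ℝ) * S (a - b) * r b ≤ (∫⁻ b, r b ^ (2 : ℝ)) ^ (1 / 2 : ℝ) := by
  have mS : Measurable fun q : ℝ × ℝ => S (q.1 - q.2) :=
    hS.comp (measurable_fst.sub measurable_snd)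
  have mU : Measurable fun q : ℝ × ℝ => (U q.1 * S (q.1 - q.2)) ^ (1 / 2 : ℝ) :=
    ((hU.comp measurable_fst).mul mS).pow_const _
  have mr : Measurable fun q : ℝ × ℝ => (r q.2 ^ (2 : ℝ) * S (q.1 - q.2)) ^ (1 / 2 : ℝ) :=
    (((hr.comp measurable_snd).pow_const _).mul mS).pow_const _
  have e : ∀ a b, U a ^ (1 / 2 : ℝ) * S (a - b) * r b =
      (U a * S (a - b)) ^ (1 / 2 : ℝ) * (r b ^ (2 : ℝ) * S (a - b)) ^ (1 / 2 : ℝ) := by
    intro a b
    rw [ENNReal.mul_rpow_of_nonneg _ _ (by norm_num), ENNReal.mul_rpow_of_nonneg _ _ (by norm_num),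
      sq_half]
    nth_rewrite 1 [← half_mul_half (S (a - b))]
    ring
  have e2 : ∫⁻ a, ∫⁻ b, U a ^ (1 / 2 : ℝ) * S (a - b) * r b =
      ∫⁻ q : ℝ × ℝ, (U q.1 * S (q.1 - q.2)) ^ (1 / 2 : ℝ) *
        (r q.2 ^ (2 : ℝ) * S (q.1 - q.2)) ^ (1 / 2 : ℝ) := by
    have mm : Measurable fun q : ℝ × ℝ => (U q.1 * S (q.1 - q.2)) ^ (1 / 2 : ℝ) *
        (r q.2 ^ (2 : ℝ) * S (q.1 - q.2)) ^ (1 / 2 : ℝ) := mU.mul mr
    rw [Measure.volume_eq_prod, lintegral_prod _ mm.aemeasurable]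
    exact lintegral_congr fun a => lintegral_congr fun b => e a b
  rw [e2]
  refine (cs _ mU.aemeasurable mr.aemeasurable).trans ?_
  have i1 : ∫⁻ q : ℝ × ℝ, ((U q.1 * S (q.1 - q.2)) ^ (1 / 2 : ℝ)) ^ (2 : ℝ) = 1 := by
    simp_rw [half_sq]
    have mm : Measurable fun q : ℝ × ℝ => U q.1 * S (q.1 - q.2) := by fun_prop
    rw [Measure.volume_eq_prod, lintegral_prod _ mm.aemeasurable]
    have e3 : ∀ a, ∫⁻ b, U a * S (a - b) = U a := by
      intro a
      rw [lintegral_const_mul _ (by fun_prop : Measurable fun b => S (a - b)),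
        lintegral_sub_left_eq_self (fun x => S x) a, h1, mul_one]
    rw [lintegral_congr e3, hU1]
  have i2 : ∫⁻ q : ℝ × ℝ, ((r q.2 ^ (2 : ℝ) * S (q.1 - q.2)) ^ (1 / 2 : ℝ)) ^ (2 : ℝ) =
      ∫⁻ b, r b ^ (2 : ℝ) := by
    simp_rw [half_sq]
    have mm : Measurable fun q : ℝ × ℝ => r q.2 ^ (2 : ℝ) * S (q.1 - q.2) :=
      ((hr.comp measurable_snd).pow_const _).mul mS
    rw [Measure.volume_eq_prod, lintegral_prod_symm _ mm.aemeasurable]
    refine lintegral_congr fun b => ?_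
    show ∫⁻ x, r b ^ (2 : ℝ) * S (x - b) = r b ^ (2 : ℝ)
    rw [lintegral_const_mul _ (by fun_prop : Measurable fun x => S (x - b)),
      lintegral_sub_right_eq_self (fun x => S x) b, h1, mul_one]
  rw [i1, i2, ENNReal.one_rpow, one_mul]

/-- `∬ U^(1/2)(a) S(a-b) S(c-b)^(1/2)` -/
lemma main_term (hS : Measurable S) (hU : Measurable U) (hU1 : ∫⁻ x, U x = 1) (c : ℝ) :
    ∫⁻ a, ∫⁻ b, U a ^ (1 / 2 : ℝ) * S (a - b) * S (c - b) ^ (1 / 2 : ℝ) ≤
      (∫⁻ t, G0 S t ^ (2 : ℝ)) ^ (1 / 2 : ℝ) := by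
  have e : ∀ a, ∫⁻ b, U a ^ (1 / 2 : ℝ) * S (a - b) * S (c - b) ^ (1 / 2 : ℝ) =
      U a ^ (1 / 2 : ℝ) * G0 S (a - c) := by
    intro a
    have e1 : ∀ b, U a ^ (1 / 2 : ℝ) * S (a - b) * S (c - b) ^ (1 / 2 : ℝ) =
        U a ^ (1 / 2 : ℝ) * ((fun x => S (a - c + x) * S x ^ (1 / 2 : ℝ)) (c - b)) := by
      intro b
      show _ = U a ^ (1 / 2 : ℝ) * (S (a - c + (c - b)) * S (c - b) ^ (1 / 2 : ℝ))
      rw [show a - c + (c - b) = a - b by ring]
      ring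
    have mm : Measurable fun b => (fun x => S (a - c + x) * S x ^ (1 / 2 : ℝ)) (c - b) := by
      show Measurable fun b => S (a - c + (c - b)) * S (c - b) ^ (1 / 2 : ℝ)
      fun_prop
    rw [lintegral_congr e1, lintegral_const_mul _ mm,
      lintegral_sub_left_eq_self (fun x => S (a - c + x) * S x ^ (1 / 2 : ℝ)) c]
    rfl
  rw [lintegral_congr e]
  have mG := G0_meas hS
  have m2 : Measurable fun a => G0 S (a - c) := by fun_prop
  refine (cs _ (hU.pow_const _).aemeasurable m2.aemeasurable).trans ?_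
  simp_rw [half_sq]
  rw [hU1, ENNReal.one_rpow, one_mul,
    lintegral_sub_right_eq_self (fun t => G0 S t ^ (2 : ℝ)) c]

/-- the dichotomy: the affinity of `U(a) S(a-b)` with `V(b) S(a-b)` or with `U(a) V(b)` is small -/
lemma dichotomy (hS : Measurable S) (h1 : ∫⁻ x, S x = 1) (hfS : ∀ x, S x ≠ ∞)
    {e : ℝ} (he : 0 < e) (he1 : e < 1)
    (hk : (∫⁻ t, G0 S t ^ (2 : ℝ)) ^ (1 / 2 : ℝ) + ENNReal.ofReal (2 * e) ^ (1 / 2 : ℝ) ≤
      ENNReal.ofReal (1 - e))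
    (hU : Measurable U) (hU1 : ∫⁻ x, U x = 1) (hV : Measurable V) (hV1 : ∫⁻ x, V x = 1) :
    ∫⁻ a, ∫⁻ b, ((U a * S (a - b)) * (V b * S (a - b))) ^ (1 / 2 : ℝ) ≤ ENNReal.ofReal (1 - e) ∨
    ∫⁻ a, ∫⁻ b, ((U a * S (a - b)) * (U a * V b)) ^ (1 / 2 : ℝ) ≤ ENNReal.ofReal (1 - e) := by
  by_cases hc : ∀ a, ∫⁻ b, (S (a - b) * V b) ^ (1 / 2 : ℝ) ≤ ENNReal.ofReal (1 - e)
  · right
    have e1 : ∀ a, ∫⁻ b, ((U a * S (a - b)) * (U a * V b)) ^ (1 / 2 : ℝ) ≤
        U a * ENNReal.ofReal (1 - e) := by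
      intro a
      have e2 : ∀ b, ((U a * S (a - b)) * (U a * V b)) ^ (1 / 2 : ℝ) =
          U a * (S (a - b) * V b) ^ (1 / 2 : ℝ) := by
        intro b
        rw [show (U a * S (a - b)) * (U a * V b) = (U a * U a) * (S (a - b) * V b) by ring,
          ENNReal.mul_rpow_of_nonneg _ _ (by norm_num), mul_self_half]
      rw [lintegral_congr e2, lintegral_const_mul _
        (by fun_prop : Measurable fun b => (S (a - b) * V b) ^ (1 / 2 : ℝ))]
      gcongr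
      exact hc a
    calc _ ≤ ∫⁻ a, U a * ENNReal.ofReal (1 - e) := lintegral_mono e1
      _ = ENNReal.ofReal (1 - e) := by rw [lintegral_mul_const _ hU, hU1, one_mul]
  · left
    push Not at hc
    obtain ⟨c, hc⟩ := hc
    set W : ℝ → ℝ≥0∞ := fun b => S (c - b) ^ (1 / 2 : ℝ) with hW
    set v : ℝ → ℝ≥0∞ := fun b => V b ^ (1 / 2 : ℝ) with hv
    have mW : Measurable W := (hS.comp (measurable_const.sub measurable_id)).pow_const _
    have mv : Measurable v := hV.pow_const _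
    have hWf : ∀ b, W b ≠ ∞ := fun b => ENNReal.rpow_ne_top_of_nonneg (by norm_num) (hfS _)
    set r : ℝ → ℝ≥0∞ := fun b => v b - W b with hr
    have mr : Measurable r := mv.sub mW
    have iW : ∫⁻ b, W b ^ (2 : ℝ) = 1 := by
      simp_rw [hW, half_sq]
      rw [lintegral_sub_left_eq_self (fun x => S x) c, h1]
    have iv : ∫⁻ b, v b ^ (2 : ℝ) = 1 := by
      simp_rw [hv, half_sq]
      exact hV1
    have hsum : 2 * (∫⁻ b, v b * W b) + ∫⁻ b, r b ^ (2 : ℝ) ≤ 2 := by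
      have hm : Measurable fun b => v b * W b := mv.mul mW
      calc 2 * (∫⁻ b, v b * W b) + ∫⁻ b, r b ^ (2 : ℝ)
          = ∫⁻ b, (2 * (v b * W b) + r b ^ (2 : ℝ)) := by
            rw [lintegral_add_left (hm.const_mul _), lintegral_const_mul _ hm]
        _ ≤ ∫⁻ b, (v b ^ (2 : ℝ) + W b ^ (2 : ℝ)) :=
            lintegral_mono fun b => tsub_sq (v b) (W b) (hWf b)
        _ = 2 := by
            rw [lintegral_add_left (mv.pow_const _), iv, iW]
            norm_num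
    have haff : ENNReal.ofReal (1 - e) ≤ ∫⁻ b, v b * W b := by
      refine hc.le.trans (le_of_eq (lintegral_congr fun b => ?_))
      rw [ENNReal.mul_rpow_of_nonneg _ _ (by norm_num), mul_comm]
    have hr2 : ∫⁻ b, r b ^ (2 : ℝ) ≤ ENNReal.ofReal (2 * e) := by
      have h3 : 2 * ENNReal.ofReal (1 - e) + ∫⁻ b, r b ^ (2 : ℝ) ≤ 2 :=
        le_trans (by gcongr) hsum
      have h4 : 2 * ENNReal.ofReal (1 - e) + ENNReal.ofReal (2 * e) = 2 := by
        rw [ENNReal.ofReal_mul (by norm_num : (0 : ℝ) ≤ 2), ENNReal.ofReal_ofNat, ← mul_add,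
          ← ENNReal.ofReal_add (by linarith) he.le]
        norm_num
      have h5 : 2 * ENNReal.ofReal (1 - e) + ∫⁻ b, r b ^ (2 : ℝ) ≤
          2 * ENNReal.ofReal (1 - e) + ENNReal.ofReal (2 * e) := by rwa [h4]
      exact (ENNReal.add_le_add_iff_left
        (ENNReal.mul_ne_top (by norm_num) ENNReal.ofReal_ne_top)).1 h5
    have e1 : ∀ a b, ((U a * S (a - b)) * (V b * S (a - b))) ^ (1 / 2 : ℝ) =
        U a ^ (1 / 2 : ℝ) * S (a - b) * v b := by
      intro a b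
      rw [show (U a * S (a - b)) * (V b * S (a - b)) = U a * V b * (S (a - b) * S (a - b)) by ring,
        ENNReal.mul_rpow_of_nonneg _ _ (by norm_num), mul_self_half,
        ENNReal.mul_rpow_of_nonneg _ _ (by norm_num)]
      show U a ^ (1 / 2 : ℝ) * V b ^ (1 / 2 : ℝ) * S (a - b) =
        U a ^ (1 / 2 : ℝ) * S (a - b) * V b ^ (1 / 2 : ℝ)
      ring
    have m1 : Measurable fun q : ℝ × ℝ => U q.1 ^ (1 / 2 : ℝ) * S (q.1 - q.2) * W q.2 := by fun_prop
    calc ∫⁻ a, ∫⁻ b, ((U a * S (a - b)) * (V b * S (a - b))) ^ (1 / 2 : ℝ)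
        = ∫⁻ a, ∫⁻ b, U a ^ (1 / 2 : ℝ) * S (a - b) * v b :=
          lintegral_congr fun a => lintegral_congr fun b => e1 a b
      _ ≤ ∫⁻ a, ∫⁻ b, (U a ^ (1 / 2 : ℝ) * S (a - b) * W b +
            U a ^ (1 / 2 : ℝ) * S (a - b) * r b) := by
          refine lintegral_mono fun a => lintegral_mono fun b => ?_
          show U a ^ (1 / 2 : ℝ) * S (a - b) * v b ≤ U a ^ (1 / 2 : ℝ) * S (a - b) * W b +
            U a ^ (1 / 2 : ℝ) * S (a - b) * (v b - W b)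
          rw [← mul_add]
          gcongr
          exact le_add_tsub
      _ = (∫⁻ a, ∫⁻ b, U a ^ (1 / 2 : ℝ) * S (a - b) * W b) +
            ∫⁻ a, ∫⁻ b, U a ^ (1 / 2 : ℝ) * S (a - b) * r b := by
          rw [← lintegral_add_left (Measurable.lintegral_prod_right' m1)]
          refine lintegral_congr fun a => ?_
          rw [lintegral_add_left]
          fun_prop
      _ ≤ (∫⁻ t, G0 S t ^ (2 : ℝ)) ^ (1 / 2 : ℝ) + ENNReal.ofReal (2 * e) ^ (1 / 2 : ℝ) := by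
          gcongr
          · exact main_term hS hU hU1 c
          · exact (bilin hS h1 hU hU1 mr).trans (ENNReal.rpow_le_rpow hr2 (by norm_num))
      _ ≤ ENNReal.ofReal (1 - e) := hk

end Aff

/-- the choice of the constant -/
lemma exists_eps {k : ℝ≥0∞} (hk : k < 1) :
    ∃ e : ℝ, 0 < e ∧ e < 1 ∧ k + ENNReal.ofReal (2 * e) ^ (1 / 2 : ℝ) ≤ ENNReal.ofReal (1 - e) := by
  lift k to ℝ≥0 using (hk.trans ENNReal.one_lt_top).ne
  have hk1 : (k : ℝ) < 1 := by exact_mod_cast hk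
  have hk0 : (0 : ℝ) ≤ k := k.2
  set d : ℝ := 1 - k with hd
  have hd0 : 0 < d := by linarith
  have hd1 : d ≤ 1 := by linarith
  refine ⟨d ^ 2 / 8, by positivity, by nlinarith, ?_⟩
  rw [ENNReal.ofReal_rpow_of_nonneg (by positivity) (by norm_num), ← ENNReal.ofReal_coe_nnreal,
    ← ENNReal.ofReal_add hk0 (by positivity)]
  apply ENNReal.ofReal_le_ofReal
  have e1 : (2 * (d ^ 2 / 8)) ^ (1 / 2 : ℝ) = d / 2 := by
    rw [← Real.sqrt_eq_rpow, show 2 * (d ^ 2 / 8) = (d / 2) ^ 2 by ring,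
      Real.sqrt_sq (by positivity)]
  rw [e1]
  nlinarith

/-- **Strict Young inequality**: for a positive density `S` and positive exponents with sum one, the
integral is bounded by a constant less than one for all densities `U`, `V`. -/
theorem youngStrict (hS : Measurable S) (h0 : ∀ x, S x ≠ 0) (hf : ∀ x, S x ≠ ∞)
    (h1 : ∫⁻ x, S x = 1) {t1 t2 t3 : ℝ} (ht1 : 0 < t1) (ht2 : 0 < t2) (ht3 : 0 < t3)
    (hs : t1 + t2 + t3 = 1) :
    ∃ c : ℝ, 0 < c ∧ c < 1 ∧ ∀ U V : ℝ → ℝ≥0∞, Measurable U → Measurable V →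
      ∫⁻ x, U x = 1 → ∫⁻ x, V x = 1 →
      ∫⁻ a, ∫⁻ b, (U a * S (a - b)) ^ t1 * (V b * S (a - b)) ^ t2 * (U a * V b) ^ t3 ≤
        ENNReal.ofReal c := by
  have hk : (∫⁻ t, G0 S t ^ (2 : ℝ)) ^ (1 / 2 : ℝ) < 1 :=
    ENNReal.rpow_lt_one (kappa_lt hS h0 hf h1) (by norm_num)
  obtain ⟨e, he, he1, hke⟩ := exists_eps hk
  set t : ℝ := min t1 (min t2 t3) with ht
  have ht0 : 0 < t := lt_min ht1 (lt_min ht2 ht3)
  have hl1 : t ≤ t1 := min_le_left _ _
  have hl2 : t ≤ t2 := (min_le_right _ _).trans (min_le_left _ _)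
  have hl3 : t ≤ t3 := (min_le_right _ _).trans (min_le_right _ _)
  refine ⟨(1 - e) ^ (2 * t), by positivity,
    Real.rpow_lt_one (by linarith) (by linarith) (by linarith), ?_⟩
  intro U V hU hV hU1 hV1
  have m1 : Measurable fun q : ℝ × ℝ => U q.1 * S (q.1 - q.2) := by fun_prop
  have m2 : Measurable fun q : ℝ × ℝ => V q.2 * S (q.1 - q.2) := by fun_prop
  have m3 : Measurable fun q : ℝ × ℝ => U q.1 * V q.2 := by fun_prop
  have i1 : ∫⁻ q : ℝ × ℝ, U q.1 * S (q.1 - q.2) = 1 := by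
    rw [Measure.volume_eq_prod, lintegral_prod _ m1.aemeasurable]
    have e3 : ∀ a, ∫⁻ b, U a * S (a - b) = U a := by
      intro a
      rw [lintegral_const_mul _ (by fun_prop : Measurable fun b => S (a - b)),
        lintegral_sub_left_eq_self (fun x => S x) a, h1, mul_one]
    rw [lintegral_congr e3, hU1]
  have i2 : ∫⁻ q : ℝ × ℝ, V q.2 * S (q.1 - q.2) = 1 := by
    rw [Measure.volume_eq_prod, lintegral_prod_symm _ m2.aemeasurable]
    have e3 : ∀ b, ∫⁻ a, V b * S (a - b) = V b := by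
      intro b
      rw [lintegral_const_mul _ (by fun_prop : Measurable fun a => S (a - b)),
        lintegral_sub_right_eq_self (fun x => S x) b, h1, mul_one]
    show ∫⁻ b, ∫⁻ a, V b * S (a - b) = 1
    rw [lintegral_congr e3, hV1]
  have i3 : ∫⁻ q : ℝ × ℝ, U q.1 * V q.2 = 1 := by
    rw [Measure.volume_eq_prod, lintegral_prod _ m3.aemeasurable]
    have e3 : ∀ a, ∫⁻ b, U a * V b = U a := by
      intro a
      rw [lintegral_const_mul _ hV, hV1, mul_one]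
    rw [lintegral_congr e3, hU1]
  have eJ : ∫⁻ a, ∫⁻ b, (U a * S (a - b)) ^ t1 * (V b * S (a - b)) ^ t2 * (U a * V b) ^ t3 =
      ∫⁻ q : ℝ × ℝ, (U q.1 * S (q.1 - q.2)) ^ t1 * (V q.2 * S (q.1 - q.2)) ^ t2 *
        (U q.1 * V q.2) ^ t3 := by
    have mm : Measurable fun q : ℝ × ℝ => (U q.1 * S (q.1 - q.2)) ^ t1 *
        (V q.2 * S (q.1 - q.2)) ^ t2 * (U q.1 * V q.2) ^ t3 := by fun_prop
    rw [Measure.volume_eq_prod, lintegral_prod _ mm.aemeasurable]
  rw [eJ, ← ENNReal.ofReal_rpow_of_nonneg (by linarith) (by positivity)]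
  rcases dichotomy hS h1 hf he he1 hke hU hU1 hV hV1 with h | h
  · refine (holder_pair _ m1.aemeasurable m2.aemeasurable m3.aemeasurable i1.le i2.le i3.le ht0
      hl1 hl2 ht3.le hs).trans (ENNReal.rpow_le_rpow ?_ (by positivity))
    have mm : Measurable fun q : ℝ × ℝ =>
        (U q.1 * S (q.1 - q.2) * (V q.2 * S (q.1 - q.2))) ^ (1 / 2 : ℝ) := by fun_prop
    rw [Measure.volume_eq_prod, lintegral_prod _ mm.aemeasurable]
    exact h
  · have e4 : ∀ q : ℝ × ℝ, (U q.1 * S (q.1 - q.2)) ^ t1 * (V q.2 * S (q.1 - q.2)) ^ t2 *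
        (U q.1 * V q.2) ^ t3 = (U q.1 * S (q.1 - q.2)) ^ t1 * (U q.1 * V q.2) ^ t3 *
        (V q.2 * S (q.1 - q.2)) ^ t2 := fun q => by ring
    rw [lintegral_congr e4]
    refine (holder_pair _ m1.aemeasurable m3.aemeasurable m2.aemeasurable i1.le i3.le i2.le ht0
      hl1 hl3 ht2.le (by linarith)).trans (ENNReal.rpow_le_rpow ?_ (by positivity))
    have mm : Measurable fun q : ℝ × ℝ =>
        (U q.1 * S (q.1 - q.2) * (U q.1 * V q.2)) ^ (1 / 2 : ℝ) := by fun_prop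
    rw [Measure.volume_eq_prod, lintegral_prod _ mm.aemeasurable]
    exact h

end Pool.Agent.U840.HI
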